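import Pool.Agent.FlatW.Weak
import Pool.Agent.Lib_helper54.Flat.Crit

/-!
# Chains whose weakly loose joints are all but few are flat-state connected
-/

set_option autoImplicit false

namespace Pool.Agent.FlatW

open Real Pool.Agent.Lib_helper54.Flat

/-- A loose joint is weakly loose. -/
theorem weaklyLoose_of_loose {n : ℕ} {θ : ℕ → ℝ} {i : ℕ} (h : Loose n θ i) :
    WeaklyLoose n θ i := by
  obtain ⟨h, hh, hc, he⟩ := h
  exact ⟨h, fun k => ⟨(hh k).1.le, (hh k).2⟩, fun k hk => ⟨(hc k hk).1, (hc k hk).2,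
    Or.inl (by linarith [(hh k).1, (hh (k + 1)).1])⟩, he⟩

section

variable {n : ℕ} {P Q : Fin (n + 1) → E3} {l θ : ℕ → ℝ}

theorem main_aux' (hD : Data P l θ) (hP : IsSimple P) (hQ : IsSimple Q) {p q a b c : E3}
    {ω ω' φ : ℝ} {s s' : ℕ → ℝ} (hON : ON a b c)
    (hs : ∀ k, s k = 1 ∨ s k = -1) (hs' : ∀ k, s' k = 1 ∨ s' k = -1)
    (eP : P = chain n p a b c ω l s (fun _ => 0) θ)
    (eQ : Q = chain n q a (cos φ • b + sin φ • c) (-sin φ • b + cos φ • c) ω' l s'
      (fun _ => 0) θ)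
    (H : ∀ k, k + 2 ≤ n → ¬ WeaklyLoose n θ k → s k = s' k) :
    JoinedIn (freeSpace P) P Q := by
  have hpos : ∀ k, k + 2 ≤ n → 0 < θ k := fun k hk => theta_pos hD hP hk
  obtain ⟨ε, h0, h1, h2⟩ := exists_eps θ (n - 1) fun k hk => hpos k (by omega)
  have g0 : Good n θ fun _ => 0 := good_const le_rfl (by positivity)
    (fun k hk => by linarith [hpos k hk]) hD.ang_le
  have g1 : Good n θ fun _ => ε := good_const h0.le h1 (fun k hk => h2 k (by omega)) hD.ang_le
  have hON' := ON_rot hON φ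
  have m1 := joined_line hD hs hON g0 g1 (eP ▸ hP) (fun _ => h0)
  have m2 := joined_rot (q := q) (ω' := ω') (φ := φ) (p := p) (ω := ω) hD hs hON g1
    (fun _ => h0)
  have m3 := joined_signs' (p := q) (ω := ω') hD hs hs' hON' g1 (fun _ => h0) H
  have m4 := joined_line hD hs' hON' g0 g1 (eQ ▸ hQ) (fun _ => h0)
  rw [← eP] at m1
  rw [← eQ] at m4
  exact ((m1.trans m2).trans m3).trans m4.symm

/-- **Theorem.** Two flat configurations which agree in the relative directions of their turns at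
the joints that are not weakly loose are joined. -/
theorem main' (hP : IsSimple P) (cP : Coplanar ℝ (Set.range P)) (cQ : Coplanar ℝ (Set.range Q))
    (hQ : Q ∈ freeSpace P)
    (H : ∀ i j, i + 2 ≤ n → j + 2 ≤ n → ¬ WeaklyLoose n (jointAngle P) i →
      ¬ WeaklyLoose n (jointAngle P) j → (0 < turnProd P i j ↔ 0 < turnProd Q i j)) :
    JoinedIn (freeSpace P) P Q := by
  obtain ⟨l, hl⟩ : ∃ l, l = len P := ⟨_, rfl⟩
  obtain ⟨θ, hθ⟩ : ∃ θ, θ = jointAngle P := ⟨_, rfl⟩
  rw [← hθ] at H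
  have hD : Data P l θ := by rw [hl, hθ]; exact data_of_simple hP
  have hDQ : Data Q l θ := ⟨hD.pos, fun i => by rw [hQ.2.1 i, hD.len i],
    fun i j hij => by rw [hQ.2.2 i j hij, hD.ang i j hij], hD.ang_nonneg, hD.ang_le⟩
  obtain ⟨c, hcc, hc⟩ := exists_normal cP
  obtain ⟨c', hcc', hc'⟩ := exists_normal cQ
  obtain ⟨a, b, φ, hON, rfl⟩ := exists_two_frames hcc hcc'
  have hON' := ON_rot hON φ
  obtain ⟨ω, s, hs, eP⟩ := flat_repr hD hON hc
  obtain ⟨ω', s', hs', eQ⟩ := flat_repr hDQ hON' hc'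
  have hsin : ∀ k, k + 2 ≤ n → ¬ WeaklyLoose n θ k → 0 < sin (θ k) := by
    intro k hk hl
    have h1 := theta_pos hD hP hk
    have h2 : θ k < π := lt_of_le_of_ne (hD.ang_le k) fun he =>
      hl (weaklyLoose_of_loose
        (loose_of_pi hD.ang_le (fun k hk => theta_pos hD hP hk) he))
    exact sin_pos_of_pos_of_lt_pi h1 h2
  have hP' : ∀ i j, i + 2 ≤ n → j + 2 ≤ n → ¬ WeaklyLoose n θ i → ¬ WeaklyLoose n θ j →
      (0 < turnProd P i j ↔ 0 < s i * s j) := by
    intro i j hi hj hi' hj'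
    have h1 := mul_pos (mul_pos (hD.pos i) (hD.pos (i + 1))) (mul_pos (hD.pos j) (hD.pos (j + 1)))
    have h2 := mul_pos (hsin i hi hi') (hsin j hj hj')
    rw [eP, turnProd_chain hON hs hD.ang_nonneg hD.ang_le hi hj, mul_pos_iff_of_pos_left h1,
      mul_pos_iff_of_pos_right h2]
  have hQ' : ∀ i j, i + 2 ≤ n → j + 2 ≤ n → ¬ WeaklyLoose n θ i → ¬ WeaklyLoose n θ j →
      (0 < turnProd Q i j ↔ 0 < s' i * s' j) := by
    intro i j hi hj hi' hj'
    have h1 := mul_pos (mul_pos (hD.pos i) (hD.pos (i + 1))) (mul_pos (hD.pos j) (hD.pos (j + 1)))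
    have h2 := mul_pos (hsin i hi hi') (hsin j hj hj')
    rw [eQ, turnProd_chain hON' hs' hD.ang_nonneg hD.ang_le hi hj, mul_pos_iff_of_pos_left h1,
      mul_pos_iff_of_pos_right h2]
  have key : ∀ i j, i + 2 ≤ n → j + 2 ≤ n → ¬ WeaklyLoose n θ i → ¬ WeaklyLoose n θ j →
      (0 < s i * s j ↔ 0 < s' i * s' j) := by
    intro i j hi hj hi' hj'
    rw [← hP' i j hi hj hi' hj', H i j hi hj hi' hj', hQ' i j hi hj hi' hj']
  by_cases hex : ∃ i, i + 2 ≤ n ∧ ¬ WeaklyLoose n θ i ∧ s i ≠ s' i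
  · obtain ⟨i, hi, hi', hne⟩ := hex
    have hopp : ∀ k, k + 2 ≤ n → ¬ WeaklyLoose n θ k → s k = -s' k := by
      intro k hk hk'
      have h3 := key i k hi hk hi' hk'
      have m1 : ∀ x y : ℝ, (x = 1 ∨ x = -1) → (y = 1 ∨ y = -1) → (0 < x * y ↔ x = y) := by
        rintro x y (rfl | rfl) (rfl | rfl) <;> norm_num
      rw [m1 _ _ (hs i) (hs k), m1 _ _ (hs' i) (hs' k)] at h3
      have m2 : ∀ x y : ℝ, (x = 1 ∨ x = -1) → (y = 1 ∨ y = -1) → x ≠ y → x = -y := by
        rintro x y (rfl | rfl) (rfl | rfl) h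
        · exact absurd rfl h
        · rw [neg_neg]
        · rfl
        · exact absurd rfl h
      by_cases hsk : s k = s' k
      · exfalso
        apply hne
        have m3 := m2 _ _ (hs i) (hs' i) hne
        by_cases e1 : s i = s k
        · rw [e1, hsk]
          exact (h3.1 e1).symm
        · have e2 : ¬ s' i = s' k := fun h => e1 (h3.2 h)
          have m4 := m2 _ _ (hs i) (hs k) e1
          have m5 := m2 _ _ (hs' i) (hs' k) e2
          rw [m4, m5, hsk]
      · exact m2 _ _ (hs k) (hs' k) hsk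
    have eb : cos (φ + π) • b + sin (φ + π) • c = -(cos φ • b + sin φ • c) := by
      rw [cos_add_pi, sin_add_pi]; module
    refine main_aux' (φ := φ + π) hD hP hQ.1 hON hs (s' := fun k => -s' k) ?_ eP
      (ω' := -ω') (q := vx Q 0) ?_ hopp
    · intro k
      rcases hs' k with h | h
      · right; simp only [h]
      · left; simp only [h, neg_neg]
    · rw [eb, ← chain_mirror (c := -sin φ • b + cos φ • c)]
      exact eQ
  · push Not at hex
    exact main_aux' hD hP hQ.1 hON hs hs' eP eQ fun k hk hk' => hex k hk hk'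

end

/-- Latitudes for the links before a link, with a prescribed latitude of this link. -/
theorem left_ext' {θ : ℕ → ℝ} (h1 : ∀ j, θ j ≤ π) {μ : ℝ} (hμ : 0 < μ) (hμ' : μ ≤ π / 3)
    (k : ℕ) : (∀ j, j < k → μ ≤ θ j) → ∀ x, 0 ≤ x → x ≤ μ →
    ∃ h : ℕ → ℝ, (∀ j, j ≤ k → 0 ≤ h j ∧ h j ≤ μ) ∧
      (∀ j, j < k → h j + h (j + 1) ≤ θ j ∧ |h j - h (j + 1)| ≤ π - θ j ∧
        (0 < h j + h (j + 1) ∨ θ j = π)) ∧ h k = x := by
  induction k with
  | zero =>
    intro _ x hx hx'
    exact ⟨fun _ => x, fun j _ => ⟨hx, hx'⟩, fun j hj => absurd hj (by omega), rfl⟩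
  | succ k ih =>
    intro h0 x hx hx'
    have h3 := h0 k (by omega)
    have h4 := h1 k
    obtain ⟨y, y0, y1, y2, y3, y4⟩ : ∃ y, 0 ≤ y ∧ y ≤ μ ∧ y + x ≤ θ k ∧
        |y - x| ≤ π - θ k ∧ (0 < y + x ∨ θ k = π) := by
      rcases eq_or_lt_of_le hx with hx0 | hx0
      · refine ⟨min (π - θ k) μ, le_min (by linarith) hμ.le, min_le_right _ _, ?_, ?_, ?_⟩
        · rw [← hx0, add_zero]
          exact (min_le_right _ _).trans h3
        · rw [← hx0, sub_zero, abs_of_nonneg (le_min (by linarith) hμ.le)]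
          exact min_le_left _ _
        · rw [← hx0, add_zero]
          rcases eq_or_lt_of_le h4 with h5 | h5
          · exact Or.inr h5
          · exact Or.inl (lt_min (by linarith) hμ)
      · refine ⟨max (x - (π - θ k)) 0, le_max_right _ _, max_le (by linarith) hμ.le, ?_, ?_,
          Or.inl (by linarith [le_max_right (x - (π - θ k)) 0])⟩
        · have : max (x - (π - θ k)) 0 ≤ θ k - x := max_le (by linarith) (by linarith)
          linarith
        · have a1 : max (x - (π - θ k)) 0 ≤ x := max_le (by linarith) hx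
          have a2 := le_max_left (x - (π - θ k)) 0
          rw [abs_le]
          constructor <;> linarith
    obtain ⟨h, e1, e2, e3⟩ := ih (fun j hj => h0 j (by omega)) y y0 y1
    refine ⟨fun j => if j = k + 1 then x else h j, ?_, ?_, if_pos rfl⟩
    · intro j hj
      show 0 ≤ (if j = k + 1 then x else h j) ∧ (if j = k + 1 then x else h j) ≤ μ
      split_ifs with hjk
      · exact ⟨hx, hx'⟩
      · exact e1 j (by omega)
    · intro j hj
      show (if j = k + 1 then x else h j) + (if j + 1 = k + 1 then x else h (j + 1)) ≤ θ j ∧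
        |(if j = k + 1 then x else h j) - (if j + 1 = k + 1 then x else h (j + 1))| ≤
          π - θ j ∧
        (0 < (if j = k + 1 then x else h j) + (if j + 1 = k + 1 then x else h (j + 1)) ∨
          θ j = π)
      rw [if_neg (by omega : ¬ j = k + 1)]
      by_cases hjk : j = k
      · rw [if_pos (by omega), hjk, e3]
        exact ⟨y2, y3, y4⟩
      · rw [if_neg (by omega)]
        exact e2 j (by omega)

theorem weaklyLoose_of {n : ℕ} {θ : ℕ → ℝ} (h1 : ∀ j, θ j ≤ π) {μ : ℝ} (hμ : 0 < μ)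
    (hμ' : μ ≤ π / 3) (h0 : ∀ j, j + 2 ≤ n → μ ≤ θ j)
    {i : ℕ} (hi : i + 2 ≤ n) {x y : ℝ} (hx : 0 ≤ x) (hx' : x ≤ μ) (hy : 0 ≤ y)
    (hy' : y ≤ μ) (c1 : x + y ≤ θ i) (c2 : |x - y| ≤ π - θ i)
    (c3 : x + y = θ i ∨ |x - y| = π - θ i) (c4 : 0 < x + y ∨ θ i = π) :
    WeaklyLoose n θ i := by
  have hμ2 : μ < π / 2 := by linarith [pi_pos]
  obtain ⟨hL, e1, e2, e3⟩ := left_ext' h1 hμ hμ' i (fun j hj => h0 j (by omega)) x hx hx'
  obtain ⟨hR, f1, f2, f3⟩ := left_ext' (θ := rv n θ) (fun j => h1 _) hμ hμ' (n - 2 - i)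
    (fun j hj => h0 _ (by omega)) y hy hy'
  obtain ⟨h, hh⟩ : ∃ h : ℕ → ℝ, h = fun j => if j ≤ i then hL j else
    if j < n then hR (n - 1 - j) else π / 4 := ⟨_, rfl⟩
  have hi1 : h i = x := by
    simp only [hh]; rw [if_pos le_rfl, e3]
  have hi2 : h (i + 1) = y := by
    simp only [hh]
    rw [if_neg (by omega), if_pos (by omega), (by omega : n - 1 - (i + 1) = n - 2 - i), f3]
  refine ⟨h, ?_, ?_, ?_⟩
  · intro k
    simp only [hh]
    split_ifs with g1 g2
    · exact ⟨(e1 k g1).1, lt_of_le_of_lt (e1 k g1).2 hμ2⟩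
    · exact ⟨(f1 _ (by omega)).1, lt_of_le_of_lt (f1 _ (by omega)).2 hμ2⟩
    · constructor <;> linarith [pi_pos]
  · intro k hk
    rcases lt_trichotomy k i with g | g | g
    · have u1 : h k = hL k := by simp only [hh]; exact if_pos (by omega)
      have u2 : h (k + 1) = hL (k + 1) := by simp only [hh]; exact if_pos (by omega)
      rw [u1, u2]
      exact e2 k g
    · subst g
      rw [hi1, hi2]
      exact ⟨c1, c2, c4⟩
    · have u1 : h k = hR (n - 1 - k) := by
        simp only [hh]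
        rw [if_neg (by omega), if_pos (by omega)]
      have u2 : h (k + 1) = hR (n - 2 - k) := by
        simp only [hh]
        rw [if_neg (by omega), if_pos (by omega), (by omega : n - 1 - (k + 1) = n - 2 - k)]
      have u3 := f2 (n - 2 - k) (by omega)
      rw [(by omega : n - 2 - k + 1 = n - 1 - k)] at u3
      unfold rv at u3
      rw [(by omega : n - 2 - (n - 2 - k) = k)] at u3
      rw [u1, u2, abs_sub_comm, add_comm]
      exact u3
  · rw [hi1, hi2]
    exact c3

/-- Joints of chains without angles below `μ`. -/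
theorem weaklyLoose_of_mu {n : ℕ} {θ : ℕ → ℝ} (h1 : ∀ j, θ j ≤ π) {μ : ℝ} (hμ : 0 < μ)
    (h2 : ∀ j, j + 2 ≤ n → μ ≤ θ j) {i : ℕ} (hi : i + 2 ≤ n)
    (h3 : θ i ≤ 2 * μ ∨ π - μ ≤ θ i) : WeaklyLoose n θ i := by
  rcases lt_or_ge (π / 3) μ with h | h
  · apply weaklyLoose_of_loose
    apply loose_of_mu h1 hμ h2 hi
    by_contra hc
    push Not at hc
    linarith [hc.1, hc.2]
  · have h4 := h2 i hi
    have h5 := h1 i
    rcases h3 with h3 | h3
    · exact weaklyLoose_of h1 hμ h h2 hi (x := θ i / 2) (y := θ i / 2) (by linarith)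
        (by linarith) (by linarith) (by linarith) (by linarith)
        (by rw [sub_self, abs_zero]; linarith) (Or.inl (by ring)) (Or.inl (by linarith))
    · have h6 : |π - θ i - 0| = π - θ i := by
        rw [sub_zero, abs_of_nonneg (by linarith)]
      refine weaklyLoose_of h1 hμ h h2 hi (x := π - θ i) (y := 0) (by linarith)
        (by linarith) le_rfl hμ.le (by linarith [pi_pos]) h6.le (Or.inr h6) ?_
      rcases eq_or_lt_of_le h5 with h7 | h7
      · exact Or.inr h7
      · exact Or.inl (by linarith)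

end Pool.Agent.FlatW
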