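import Pool.Agent.Lib_helper54.Flat.Defs

/-!
# Weakly loose joints
-/

set_option autoImplicit false

namespace Pool.Agent.FlatW

open Real Pool.Agent.Lib_helper54.Flat

/-- Joint `i` of a chain with `n` links and joint angles `θ` is weakly loose: there are latitudes
`h k` with `0 ≤ h k < π / 2` for the links such that for every joint `k` the point pairs at
latitudes `h k`, `h (k + 1)` on the sphere can have spherical distance `π - θ k`, the latitudes of
two consecutive links are not both `0` (unless the joint between them is straight), and for the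
joint `i` the spherical distance is `π - θ i` only with difference of longitudes `0` or `π`. -/
def WeaklyLoose (n : ℕ) (θ : ℕ → ℝ) (i : ℕ) : Prop :=
  ∃ h : ℕ → ℝ, (∀ k, 0 ≤ h k ∧ h k < π / 2) ∧
    (∀ k, k + 2 ≤ n → h k + h (k + 1) ≤ θ k ∧ |h k - h (k + 1)| ≤ π - θ k ∧
      (0 < h k + h (k + 1) ∨ θ k = π)) ∧
    (h i + h (i + 1) = θ i ∨ |h i - h (i + 1)| = π - θ i)

end Pool.Agent.FlatW
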