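import Pool.Agent.Lib_helper54.Flat.Main
import Pool.Agent.FlatW.Defs

/-!
# Chains that climb weakly are simple
-/

set_option autoImplicit false

namespace Pool.Agent.FlatW

open Real Pool.Agent.Lib_helper54.Flat

section

variable {n : ℕ} {p a b c : E3} {ω : ℝ} {l s h θ : ℕ → ℝ}

/-- Two consecutive horizontal links have the same direction. -/
theorem dir_straight (hw : ∀ k, k + 2 ≤ n → 0 < h k + h (k + 1) ∨ θ k = π) {k : ℕ}
    (hk : k + 2 ≤ n) (h0 : h k = 0) (h1 : h (k + 1) = 0) :
    dir a b c ω s h θ (k + 1) = dir a b c ω s h θ k := by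
  have hθ : θ k = π := by
    rcases hw k hk with h2 | h2
    · rw [h0, h1, add_zero] at h2
      exact absurd h2 (lt_irrefl _)
    · exact h2
  have haz : az ω s h θ (k + 1) = az ω s h θ k := by
    rw [az_succ, h0, h1, hθ, dlt_zero pi_pos.le le_rfl, sub_self, mul_zero, add_zero]
  unfold dir
  rw [haz, h0, h1]

/-- A chain that climbs weakly and has no two consecutive horizontal links (except at straight
joints) is simple. -/
theorem simple_of_weak (hON : ON a b c) (hl : ∀ k, 0 < l k)
    (hh : ∀ k, 0 ≤ h k ∧ h k < π / 2)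
    (hw : ∀ k, k + 2 ≤ n → 0 < h k + h (k + 1) ∨ θ k = π) :
    IsSimple (chain n p a b c ω l s h θ) := by
  obtain ⟨v, hv⟩ : ∃ v, v = vtx p a b c ω l s h θ := ⟨_, rfl⟩
  obtain ⟨u, hu⟩ : ∃ u, u = dir a b c ω s h θ := ⟨_, rfl⟩
  have hsin : ∀ k, 0 ≤ sin (h k) := fun k =>
    sin_nonneg_of_nonneg_of_le_pi (hh k).1 (by linarith [(hh k).2, pi_pos])
  have hsin0 : ∀ k, sin (h k) = 0 → h k = 0 := by
    intro k hk
    by_contra hne
    have h1 : 0 < h k := lt_of_le_of_ne (hh k).1 (Ne.symm hne)
    have h2 := sin_pos_of_pos_of_lt_pi h1 (by linarith [(hh k).2, pi_pos])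
    rw [hk] at h2
    exact lt_irrefl _ h2
  have hz : ∀ k, (inner ℝ c (v (k + 1)) : ℝ) = inner ℝ c (v k) + l k * sin (h k) := by
    intro k
    rw [hv]
    exact height_succ hON k
  have hstep : ∀ k, (inner ℝ c (v k) : ℝ) ≤ inner ℝ c (v (k + 1)) := by
    intro k
    rw [hz k]
    have := mul_nonneg (hl k).le (hsin k)
    linarith
  have hmono : Monotone fun k => (inner ℝ c (v k) : ℝ) := monotone_nat_of_le_succ hstep
  have hvs : ∀ k, v (k + 1) = v k + l k • u k := by
    intro k
    rw [hv, hu]
    exact vtx_succ k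
  have huu : ∀ k, (inner ℝ (u k) (u k) : ℝ) = 1 := by
    intro k
    rw [hu]
    exact dir_inner_self hON k
  have hcu : ∀ k, (inner ℝ c (u k) : ℝ) = sin (h k) := by
    intro k
    rw [hu]
    exact dir_height hON k
  have hstr : ∀ k, k + 2 ≤ n → h k = 0 → h (k + 1) = 0 → u (k + 1) = u k := by
    intro k hk h0 h1
    rw [hu]
    exact dir_straight hw hk h0 h1
  -- points of a link
  have hpt : ∀ k x, x ∈ segment ℝ (v k) (v (k + 1)) →
      (∃ ρ : ℝ, 0 ≤ ρ ∧ x = v k + ρ • u k) ∧ ∃ ρ : ℝ, 0 ≤ ρ ∧ x = v (k + 1) - ρ • u k := by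
    rintro k x ⟨α, β, hα, hβ, hαβ, rfl⟩
    have e : α = 1 - β := by linarith
    refine ⟨⟨β * l k, mul_nonneg hβ (hl k).le, ?_⟩, ⟨α * l k, mul_nonneg hα (hl k).le, ?_⟩⟩
    · rw [hvs k, e]
      module
    · rw [hvs k, e]
      module
  -- a common point of two links
  have key : ∀ i j, i < j → j < n → ∀ x, x ∈ segment ℝ (v i) (v (i + 1)) →
      x ∈ segment ℝ (v j) (v (j + 1)) →
      (∃ ρ : ℝ, 0 ≤ ρ ∧ x = v (i + 1) - ρ • u i ∧ (ρ = 0 ∨ h i = 0)) ∧
      (∃ ρ : ℝ, 0 ≤ ρ ∧ x = v j + ρ • u j ∧ (ρ = 0 ∨ h j = 0)) ∧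
      (inner ℝ c (v (i + 1)) : ℝ) = inner ℝ c (v j) := by
    intro i j hij hj x hx hx'
    obtain ⟨-, ρ, hρ, e1⟩ := hpt i x hx
    obtain ⟨⟨ρ', hρ', e2⟩, -⟩ := hpt j x hx'
    have z1 : (inner ℝ c x : ℝ) = inner ℝ c (v (i + 1)) - ρ * sin (h i) := by
      rw [e1, inner_sub_right, inner_smul_right, hcu]
    have z2 : (inner ℝ c x : ℝ) = inner ℝ c (v j) + ρ' * sin (h j) := by
      rw [e2, inner_add_right, inner_smul_right, hcu]
    have z3 : (inner ℝ c (v (i + 1)) : ℝ) ≤ inner ℝ c (v j) := hmono (by omega)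
    have n1 := mul_nonneg hρ (hsin i)
    have n2 := mul_nonneg hρ' (hsin j)
    have m1 : ρ * sin (h i) = 0 := by linarith
    have m2 : ρ' * sin (h j) = 0 := by linarith
    refine ⟨⟨ρ, hρ, e1, ?_⟩, ⟨ρ', hρ', e2, ?_⟩, by linarith⟩
    · rcases mul_eq_zero.1 m1 with h1 | h1
      · exact Or.inl h1
      · exact Or.inr (hsin0 _ h1)
    · rcases mul_eq_zero.1 m2 with h1 | h1
      · exact Or.inl h1
      · exact Or.inr (hsin0 _ h1)
  refine ⟨?_, ?_, ?_⟩
  · intro i heq
    rw [chain_castSucc, chain_succ, ← hv, hvs] at heq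
    have h1 : l i.val • u i.val = 0 := by
      have := congrArg (fun y => y - v i.val) heq
      simpa using this.symm
    have h2 := congrArg (fun y => (inner ℝ (u i.val) y : ℝ)) h1
    simp only [inner_smul_right, inner_zero_right, huu, mul_one] at h2
    exact (hl i.val).ne' h2
  · intro i j hij
    rw [chain_castSucc, chain_succ, chain_castSucc, chain_succ, Set.disjoint_left, ← hv]
    intro x hx hx'
    have hj := j.isLt
    obtain ⟨⟨ρ, hρ, e1, c1⟩, ⟨ρ', hρ', e2, c2⟩, z⟩ := key i.val j.val (by omega) hj x hx hx'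
    -- the links between are horizontal
    have hzero : ∀ k, i.val < k → k < j.val → h k = 0 := by
      intro k hk hk'
      have a1 : (inner ℝ c (v (i.val + 1)) : ℝ) ≤ inner ℝ c (v k) := hmono (by omega)
      have a2 : (inner ℝ c (v (k + 1)) : ℝ) ≤ inner ℝ c (v j.val) := hmono (by omega)
      have a3 := hz k
      have a4 := mul_nonneg (hl k).le (hsin k)
      have a5 : l k * sin (h k) = 0 := by linarith
      exact hsin0 k ((mul_eq_zero.1 a5).resolve_left (hl k).ne')
    have hsame : ∀ k, i.val < k → k < j.val → u k = u (i.val + 1) := by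
      intro k
      induction k with
      | zero => intro h1; omega
      | succ k ih =>
        intro hk hk'
        by_cases hki : k = i.val
        · rw [hki]
        · rw [hstr k (by omega) (hzero k (by omega) (by omega)) (hzero (k + 1) hk hk')]
          exact ih (by omega) (by omega)
    obtain ⟨w, hw'⟩ : ∃ w, w = u (i.val + 1) := ⟨_, rfl⟩
    have hww : (inner ℝ w w : ℝ) = 1 := by rw [hw']; exact huu _
    have hlong : ∀ k, i.val + 2 ≤ k → k ≤ j.val →
        (inner ℝ w (v (i.val + 1)) : ℝ) < inner ℝ w (v k) := by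
      intro k
      induction k with
      | zero => intro h1; omega
      | succ k ih =>
        intro hk hk'
        rw [hvs k, inner_add_right, inner_smul_right, hsame k (by omega) (by omega), ← hw',
          hww, mul_one]
        have := hl k
        by_cases hki : k = i.val + 1
        · rw [hki] at this ⊢
          linarith
        · have := ih (by omega) (by omega)
          linarith
    have h1 := hlong j.val (by omega) le_rfl
    have h2 : (inner ℝ w x : ℝ) ≤ inner ℝ w (v (i.val + 1)) := by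
      rw [e1, inner_sub_right, inner_smul_right]
      rcases c1 with c1 | c1
      · rw [c1]; linarith
      · have : u i.val = w := by
          rw [hw', hstr i.val (by omega) c1 (hzero (i.val + 1) (by omega) (by omega))]
        rw [this, hww]
        linarith
    have h3 : (inner ℝ w (v j.val) : ℝ) ≤ inner ℝ w x := by
      rw [e2, inner_add_right, inner_smul_right]
      rcases c2 with c2 | c2
      · rw [c2]; linarith
      · have e3 : u j.val = w := by
          obtain ⟨k, hk⟩ : ∃ k, j.val = k + 1 := ⟨j.val - 1, by omega⟩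
          rw [hk] at c2 ⊢
          rw [hstr k (by omega) (hzero k (by omega) (by omega)) c2,
            hsame k (by omega) (by omega), hw']
        rw [e3, hww]
        linarith
    linarith
  · intro i j hij
    rw [chain_castSucc, chain_succ, chain_castSucc, chain_succ, ← hv]
    rintro x ⟨hx, hx'⟩
    have hj := j.isLt
    obtain ⟨⟨ρ, hρ, e1, c1⟩, ⟨ρ', hρ', e2, c2⟩, z⟩ := key i.val j.val (by omega) hj x hx hx'
    rw [Set.mem_singleton_iff]
    rcases c1 with c1 | c1
    · rw [e1, c1, zero_smul, sub_zero]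
    rcases c2 with c2 | c2
    · rw [e2, c2, zero_smul, add_zero, hij]
    rw [hij] at c2 e2
    rw [hstr i.val (by omega) c1 c2] at e2
    have h1 := congrArg (fun y => (inner ℝ (u i.val) y : ℝ)) (e1.symm.trans e2)
    simp only [inner_sub_right, inner_add_right, inner_smul_right, huu, mul_one] at h1
    have h2 : ρ = 0 := by linarith
    rw [e1, h2, zero_smul, sub_zero]

/-- Straight motion in the heights to a configuration that climbs weakly. -/
theorem joined_line_weak {P : Fin (n + 1) → E3} {h0 h1 : ℕ → ℝ} (hD : Data P l θ)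
    (hs : ∀ k, s k = 1 ∨ s k = -1) (hON : ON a b c) (g0 : Good n θ h0) (g1 : Good n θ h1)
    (hpos0 : ∀ k, 0 < h0 k) (hw : ∀ k, k + 2 ≤ n → 0 < h1 k + h1 (k + 1) ∨ θ k = π) :
    JoinedIn (freeSpace P) (chain n p a b c ω l s h0 θ) (chain n p a b c ω l s h1 θ) := by
  have key := joined_family (P := P) (p := fun _ => p) (a := fun _ => a) (b := fun _ => b)
    (c := fun _ => c) (ω := fun _ => ω) (l := l) (s := s) (θ := θ)
    (h := fun (t : unitInterval) k => (1 - (t : ℝ)) * h0 k + (t : ℝ) * h1 k) hD hs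
    continuous_const continuous_const continuous_const continuous_const continuous_const
    ?_ (fun _ => hON) ?_ ?_
  · simpa using key
  · intro k
    fun_prop
  · intro t
    exact g0.line g1 t.2.1 t.2.2
  · intro t
    have hg := g0.line g1 t.2.1 t.2.2
    refine simple_of_weak hON hD.pos (fun k => ⟨hg.nonneg k, hg.lt k⟩) ?_
    intro k hk
    rcases hw k hk with h2 | h2
    · left
      show 0 < (1 - (t : ℝ)) * h0 k + (t : ℝ) * h1 k +
        ((1 - (t : ℝ)) * h0 (k + 1) + (t : ℝ) * h1 (k + 1))
      have a1 := hpos0 k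
      have a2 := hpos0 (k + 1)
      have t0 := t.2.1
      have t1 := t.2.2
      rcases eq_or_lt_of_le t0 with ht | ht
      · rw [← ht]; linarith
      · have b1 := mul_pos ht h2
        have b2 := mul_nonneg (by linarith : (0 : ℝ) ≤ 1 - t) a1.le
        have b3 := mul_nonneg (by linarith : (0 : ℝ) ≤ 1 - t) a2.le
        linarith
    · exact Or.inr h2

/-- The sign at a weakly loose joint can be changed. -/
theorem joined_flip' {P : Fin (n + 1) → E3} {s' h0 : ℕ → ℝ} (hD : Data P l θ)
    (hs : ∀ k, s k = 1 ∨ s k = -1) (hs' : ∀ k, s' k = 1 ∨ s' k = -1) (hON : ON a b c)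
    (g0 : Good n θ h0) (hpos0 : ∀ k, 0 < h0 k) (i : ℕ) (hi : WeaklyLoose n θ i)
    (H : ∀ k, k ≠ i → s k = s' k) :
    JoinedIn (freeSpace P) (chain n p a b c ω l s h0 θ) (chain n p a b c ω l s' h0 θ) := by
  obtain ⟨h, hh, hc, he⟩ := hi
  have g1 : Good n θ h := ⟨fun k => (hh k).1, fun k => (hh k).2, fun k hk => (hc k hk).1,
    fun k hk => (hc k hk).2.1⟩
  have habs : ∀ k, |h k| < π / 2 := fun k => by
    rw [abs_of_nonneg (hh k).1]; exact (hh k).2
  have hd : dlt (θ i) (h i) (h (i + 1)) = 0 ∨ dlt (θ i) (h i) (h (i + 1)) = π := by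
    rcases he with he | he
    · exact Or.inr (dlt_of_sum (habs _) (habs _) he)
    · exact Or.inl (dlt_of_diff (habs _) (habs _) he)
  have e1 := joined_line_weak (p := p) (ω := ω) hD hs hON g0 g1 hpos0
    (fun k hk => (hc k hk).2.2)
  have e2 := joined_line_weak (p := p) (ω := ω) hD hs' hON g0 g1 hpos0
    (fun k hk => (hc k hk).2.2)
  rw [chain_flip (h := h) i hs hs' H hd] at e1
  exact e1.trans e2.symm

/-- The signs can be changed at all weakly loose joints. -/
theorem joined_signs' {P : Fin (n + 1) → E3} {s' h0 : ℕ → ℝ} (hD : Data P l θ)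
    (hs : ∀ k, s k = 1 ∨ s k = -1) (hs' : ∀ k, s' k = 1 ∨ s' k = -1) (hON : ON a b c)
    (g0 : Good n θ h0) (hpos0 : ∀ k, 0 < h0 k)
    (H : ∀ k, k + 2 ≤ n → ¬ WeaklyLoose n θ k → s k = s' k) :
    JoinedIn (freeSpace P) (chain n p a b c ω l s h0 θ) (chain n p a b c ω l s' h0 θ) := by
  obtain ⟨u, hu⟩ : ∃ u : ℕ → ℕ → ℝ, u = fun j k => if k < j then s' k else s k := ⟨_, rfl⟩
  have hu1 : ∀ j k, u j k = 1 ∨ u j k = -1 := by
    intro j k
    simp only [hu]
    split_ifs
    · exact hs' k
    · exact hs k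
  have hmem : ∀ j, chain n p a b c ω l (u j) h0 θ ∈ freeSpace P := fun j =>
    mem_free hD hON g0 (hu1 j) (simple_of_pos hON hD.pos fun k => ⟨hpos0 k, g0.lt k⟩)
  have key : ∀ j, j + 1 ≤ n → JoinedIn (freeSpace P) (chain n p a b c ω l s h0 θ)
      (chain n p a b c ω l (u j) h0 θ) := by
    intro j
    induction j with
    | zero =>
      intro _
      have : u 0 = s := by funext k; simp [hu]
      rw [this]
      exact JoinedIn.refl (this ▸ hmem 0)
    | succ j ih =>
      intro hj
      refine (ih (by omega)).trans ?_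
      by_cases hl : WeaklyLoose n θ j
      · apply joined_flip' hD (hu1 j) (hu1 (j + 1)) hON g0 hpos0 j hl
        intro k hk
        simp only [hu]
        by_cases h1 : k < j
        · rw [if_pos h1, if_pos (by omega)]
        · rw [if_neg h1, if_neg (by omega)]
      · have : u j = u (j + 1) := by
          funext k
          simp only [hu]
          rcases lt_trichotomy k j with h1 | h1 | h1
          · rw [if_pos h1, if_pos (by omega)]
          · subst h1
            rw [if_neg (lt_irrefl _), if_pos (by omega)]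
            exact H k (by omega) hl
          · rw [if_neg (by omega), if_neg (by omega)]
        rw [← this]
        exact JoinedIn.refl (hmem j)
  rcases Nat.eq_zero_or_pos n with h0n | hn
  · have : chain n p a b c ω l s h0 θ = chain n p a b c ω l s' h0 θ :=
      chain_congr_sign fun k hk => by omega
    rw [← this]
    exact JoinedIn.refl (mem_free hD hON g0 hs
      (simple_of_pos hON hD.pos fun k => ⟨hpos0 k, g0.lt k⟩))
  · have e := key (n - 1) (by omega)
    have : chain n p a b c ω l (u (n - 1)) h0 θ = chain n p a b c ω l s' h0 θ := by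
      apply chain_congr_sign
      intro k hk
      simp only [hu]
      rw [if_pos (by omega)]
    rw [this] at e
    exact e

end

end Pool.Agent.FlatW
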